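import Pool.Agent.R89.Coin.Root
import Pool.Agent.R89.Coin.Lower
import Pool.Agent.R89.Coin.Sound
import Pool.Agent.R89.Coin.Arith

/-!
# Finding a light coin with three scales, one of them broken: the exact number of weighings

`N = 3 ^ (2 n)` coins, one of them light, three scales, one of them broken.  For `n ≥ 3` the least
number of weighings is the least `m` with `3 ^ (2 n) (2 m + 1) < 3 ^ m`.  So the counting bound
`L(n)`, the least `m` with `3 ^ (2 n) (2 m + 1) ≤ 3 ^ m`, is the truth unless it is attained with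
equality, which happens for `n = (3 ^ d - 2 d - 1) / 4`; then one more weighing is needed.

Upper bound.  A coin is `full` if it can be the light one with every broken scale; after a report of
scale `s` that is wrong for it, it can be the light one only if `s` is broken (type `s`).  One keeps
positions with at most two types and weighs on the third scale, in such a way that for every report
one of the two old types disappears or no new type arises.  This loses nothing in the counting bound
`a (2 w + 1) + x + y ≤ 3 ^ w` except for rounding; the rounding loss is at most `4 a` in total, and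
by the congruence `3 ^ d ≡ 2 d + 1 (mod 4)` this much is available unless equality holds.  The
induction starts from a table of 753 positions with at most six weighings left.

Lower bound.  If equality holds everywhere then each weighing is on a scale whose type is absent, and
the number of full coins of such a perfect position is 0, 1, 3, 5 or 9.
-/

set_option autoImplicit false

namespace Pool.Agent.Results.MP_a3b474_co.LeastWeighings

open Pool.Agent.R89.Coin

/-- `w(n)`: the least `m` such that some strategy with at most `m` weighings always finds the light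
one of `3 ^ (2 n)` coins. -/
noncomputable def w (n : ℕ) : ℕ := sInf {m : ℕ | Wins (3 ^ (2 * n)) m}

/-- The counting bound `L(n)`. -/
noncomputable def L (n : ℕ) : ℕ := sInf {m : ℕ | 3 ^ (2 * n) * (2 * m + 1) ≤ 3 ^ m}

theorem sound : Sound := fun hN h => sol_of_S hN h

theorem isLeast_w {n : ℕ} (hn : 3 ≤ n) :
    IsLeast {m : ℕ | Wins (3 ^ (2 * n)) m}
      (sInf {m : ℕ | 3 ^ (2 * n) * (2 * m + 1) < 3 ^ m}) := by
  have hne : (3 * n) ∈ {m : ℕ | 3 ^ (2 * n) * (2 * m + 1) < 3 ^ m} := strict_at n hn
  have hmem := Nat.sInf_mem (Set.nonempty_of_mem hne)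
  have hle : sInf {m : ℕ | 3 ^ (2 * n) * (2 * m + 1) < 3 ^ m} ≤ 3 * n := Nat.sInf_le hne
  constructor
  · exact upper sound hn hmem (by omega)
  · intro m hm
    exact Nat.sInf_le (lower_bound (by omega) hm)

/-- For `n ≥ 3`, `w(n)` is the least `m` with `3 ^ (2 n) (2 m + 1) < 3 ^ m`; it is `L(n) + 1` if
`4 n + 2 d + 1 = 3 ^ d` for some `d`, and `L(n)` otherwise. -/
theorem result (n : ℕ) (hn : 3 ≤ n) :
    IsLeast {m : ℕ | Wins (3 ^ (2 * n)) m} (w n) ∧
    IsLeast {m : ℕ | 3 ^ (2 * n) * (2 * m + 1) < 3 ^ m} (w n) ∧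
    ((∃ d : ℕ, 4 * n + 2 * d + 1 = 3 ^ d) → w n = L n + 1) ∧
    ((¬ ∃ d : ℕ, 4 * n + 2 * d + 1 = 3 ^ d) → w n = L n) ∧
    w n < 3 * n + 1 := by
  have h1 := isLeast_w hn
  have h2 : w n = sInf {m : ℕ | 3 ^ (2 * n) * (2 * m + 1) < 3 ^ m} := h1.csInf_eq
  have hne : (3 * n) ∈ {m : ℕ | 3 ^ (2 * n) * (2 * m + 1) < 3 ^ m} := strict_at n hn
  have hW : IsLeast {m : ℕ | 3 ^ (2 * n) * (2 * m + 1) < 3 ^ m} (w n) := by
    rw [h2]
    exact ⟨Nat.sInf_mem (Set.nonempty_of_mem hne), fun m hm => Nat.sInf_le hm⟩
  have hneL : (3 * n) ∈ {m : ℕ | 3 ^ (2 * n) * (2 * m + 1) ≤ 3 ^ m} :=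
    (strict_at n hn).le
  have hL : IsLeast {m : ℕ | 3 ^ (2 * n) * (2 * m + 1) ≤ 3 ^ m} (L n) :=
    ⟨Nat.sInf_mem (Set.nonempty_of_mem hneL), fun m hm => Nat.sInf_le hm⟩
  have h3 := least_strict hn hL hW
  have h4 := tight_iff hn hL
  refine ⟨?_, hW, fun hd => h3.1 (h4.2 hd), fun hd => h3.2 (fun h => hd (h4.1 h)), ?_⟩
  · rw [h2]; exact h1
  · have := hW.2 hne
    omega

end Pool.Agent.Results.MP_a3b474_co.LeastWeighings
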